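import Pool.Agent.helper37.ND.Spec

/-!
# Row TEX of project ND (MP_baa4d7_al)
-/

set_option autoImplicit false

namespace Pool.Agent.ND

open Pool.Agent.helper58.DC Pool.Agent.DI Pool.Agent.GR Pool.Agent.OB Pool.Agent.DR Pool.Agent.FI Pool.Agent.FI3 Pool.Agent.FI4 Pool.Agent.FI4I Pool.Agent.LE Pool.Agent.L5 Pool.Agent.NAB

theorem TEX : TEX_stmt := by
  intro p hp e G _ _
  have hc : Nat.card G ≠ 0 := Nat.card_pos.ne'
  obtain ⟨a, n, hn, hG⟩ := Nat.exists_eq_pow_mul_and_not_dvd hc p hp.ne_one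
  have hcop : Nat.Coprime (p ^ a) n := Nat.Coprime.pow_left a ((Nat.Prime.coprime_iff_not_dvd hp).2 hn)
  obtain ⟨t, ht1, ht2⟩ := Nat.chineseRemainder hcop (p ^ (e - 3)) 0
  refine ⟨t, ?_, ?_⟩
  · intro u hu
    obtain ⟨k, hk⟩ := hu
    rw [pow_eq_pow_iff_modEq]
    refine ht1.of_dvd ?_
    obtain ⟨j, _, hj⟩ := (Nat.dvd_prime_pow hp).1 (orderOf_dvd_of_pow_eq_one hk)
    have h1 : orderOf u ∣ p ^ a * n := hG ▸ orderOf_dvd_natCard u
    rw [hj] at h1 ⊢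
    have h2 : Nat.Coprime (p ^ j) n := Nat.Coprime.pow_left j ((Nat.Prime.coprime_iff_not_dvd hp).2 hn)
    exact h2.dvd_of_dvd_mul_right h1
  · intro v hv
    rw [← orderOf_dvd_iff_pow_eq_one]
    have h1 : orderOf v ∣ p ^ a * n := hG ▸ orderOf_dvd_natCard v
    have h2 : Nat.Coprime (orderOf v) (p ^ a) := (Nat.Coprime.pow_left a ((Nat.Prime.coprime_iff_not_dvd hp).2 hv)).symm
    have h3 : orderOf v ∣ n := h2.dvd_of_dvd_mul_left h1
    exact h3.trans ((Nat.modEq_zero_iff_dvd).1 ht2)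

end Pool.Agent.ND
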