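import Pool.Agent.helper37.ND.Spec

/-!
# Row ZGD of project ND (MP_baa4d7_al)
-/

set_option autoImplicit false

namespace Pool.Agent.ND

open Pool.Agent.helper58.DC Pool.Agent.DI Pool.Agent.GR Pool.Agent.OB Pool.Agent.DR Pool.Agent.FI Pool.Agent.FI3 Pool.Agent.FI4 Pool.Agent.FI4I Pool.Agent.LE Pool.Agent.L5 Pool.Agent.NAB

theorem ZGD_idx {p e m : ℕ} (hp : p.Prime) {G : Type} [Group G] [Finite G] (hG : IsPGroup p G) (hc : Nat.card G ≤ p ^ (e + m)) (z : G)
    (hz : ∀ d : G, z * d = d * z) (ho : orderOf z = p ^ e) :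
    (∀ u : G, u ^ p ^ m ∈ Subgroup.zpowers z) ∧
    (∀ n : ℕ, m ≤ n → ∀ u v : G, (u * v) ^ p ^ n = u ^ p ^ n * v ^ p ^ n) := by
  haveI := Fact.mk hp
  have hnorm : (Subgroup.zpowers z).Normal := by
    refine ⟨fun x hx g => ?_⟩
    obtain ⟨k, rfl⟩ := Subgroup.mem_zpowers_iff.1 hx
    have h1 : Commute z g := hz g
    have h2 : Commute (z ^ k) g := h1.zpow_left k
    rw [← h2.eq, mul_inv_cancel_right]
    exact hx
  obtain ⟨a, ha⟩ := hG.exists_card_eq
  have hle : Subgroup.zpowers z ≤ Subgroup.center G := by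
    rw [Subgroup.zpowers_le]
    exact Subgroup.mem_center_iff.2 (fun g => (hz g).symm)
  have hci := Subgroup.card_mul_index (Subgroup.zpowers z)
  rw [Nat.card_zpowers, ho] at hci
  obtain ⟨j, hj1, hj⟩ := (Nat.dvd_prime_pow hp).1 (show (Subgroup.zpowers z).index ∣ p ^ a from ha ▸ Dvd.intro_left _ hci)
  have hjm : j ≤ m := by
    rw [hj, ← pow_add] at hci
    rw [← hci] at hc
    have := (Nat.pow_le_pow_iff_right hp.one_lt).1 hc
    omega
  obtain ⟨i, hi1, hi⟩ := (Nat.dvd_prime_pow hp).1 (show (Subgroup.center G).index ∣ p ^ j from hj ▸ Subgroup.index_dvd_of_le hle)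
  refine ⟨?_, ?_⟩
  · intro u
    have h1 : u ^ p ^ j ∈ Subgroup.zpowers z := by
      rw [← hj]
      exact Subgroup.pow_index_mem (Subgroup.zpowers z) u
    have h2 : u ^ p ^ m = (u ^ p ^ j) ^ p ^ (m - j) := by
      rw [← pow_mul, ← pow_add]
      congr 2
      omega
    rw [h2]
    exact Subgroup.pow_mem _ h1 _
  · intro n hn u v
    have key : ∀ w : G, w ^ p ^ n = (w ^ p ^ i) ^ p ^ (n - i) := by
      intro w
      rw [← pow_mul, ← pow_add]
      congr 2
      omega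
    have hap : ∀ w : G, ((MonoidHom.transferCenterPow G w : Subgroup.center G) : G) = w ^ p ^ i := by
      intro w
      rw [MonoidHom.transferCenterPow_apply, hi]
    rw [key, key, key, ← hap, ← hap, ← hap, map_mul, Subgroup.coe_mul]
    have hcm : Commute ((MonoidHom.transferCenterPow G u : Subgroup.center G) : G) ((MonoidHom.transferCenterPow G v : Subgroup.center G) : G) :=
      (Subgroup.mem_center_iff.1 (MonoidHom.transferCenterPow G v).2 _)
    exact hcm.mul_pow _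

theorem ZGD (hZGP : ZGP_stmt) : ZGD_stmt := by
  intro p e m hp hem G _ _ D hD hc z hzD hzc ho
  have hidx := ZGD_idx (e := e) (m := m) hp hD hc (⟨z, hzD⟩ : D)
    (fun d => Subtype.ext (hzc d.1 d.2)) (by rw [← Subgroup.orderOf_coe]; exact ho)
  have hA : ∀ u ∈ D, u ^ p ^ m ∈ Subgroup.zpowers z := by
    intro u hu
    obtain ⟨k, hk⟩ := Subgroup.mem_zpowers_iff.1 (hidx.1 ⟨u, hu⟩)
    refine Subgroup.mem_zpowers_iff.2 ⟨k, ?_⟩
    have := congrArg Subtype.val hk
    simpa using this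
  have hB : ∀ u ∈ D, ∀ v ∈ D, (u * v) ^ p ^ (e - 3) = u ^ p ^ (e - 3) * v ^ p ^ (e - 3) := by
    intro u hu v hv
    have := congrArg Subtype.val (hidx.2 (e - 3) (by omega) ⟨u, hu⟩ ⟨v, hv⟩)
    simpa using this
  have hpel : ∀ u ∈ D, PEl p u := by
    intro u hu
    obtain ⟨k, hk⟩ := hD ⟨u, hu⟩
    refine ⟨k, ?_⟩
    have := congrArg Subtype.val hk
    simpa using this
  obtain ⟨_, _, ⟨hcz, _⟩, _, _, _, _, h8⟩ := hZGP p e m hp (by omega) G z (hpel z hzD) ho
  have hZz : Zg p e m z ≤ Subgroup.zpowers z := by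
    unfold Zg
    rw [Subgroup.zpowers_le]
    exact Subgroup.pow_mem _ (Subgroup.mem_zpowers z) _
  refine ⟨?_, ?_, hB, ?_⟩
  · intro w hw how
    obtain ⟨_, _, ⟨hcw, _⟩, _⟩ := hZGP p e m hp (by omega) G w (hpel w hw) how
    refine h8 _ _ z ?_ hZz (hcw.trans hcz.symm)
    unfold Zg
    rw [Subgroup.zpowers_le]
    have h2 : w ^ p ^ (e - (m + 3)) = (w ^ p ^ m) ^ p ^ (e - (m + 3) - m) := by
      rw [← pow_mul, ← pow_add]
      congr 2
      omega
    rw [h2]
    exact Subgroup.pow_mem _ (hA w hw) _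
  · intro u hu
    obtain ⟨k, hk⟩ := Subgroup.mem_zpowers_iff.1 (hA u hu)
    have h2 : u ^ p ^ (e - 3) = (u ^ p ^ m) ^ p ^ (e - (m + 3)) := by
      rw [← pow_mul, ← pow_add]
      congr 2
      omega
    rw [h2, ← hk]
    unfold Zg
    refine Subgroup.mem_zpowers_iff.2 ⟨k, ?_⟩
    rw [← zpow_natCast (z ^ k), ← zpow_natCast z, ← zpow_mul, ← zpow_mul, mul_comm]
  · intro u hu hnle
    obtain ⟨k, hk⟩ := Subgroup.mem_zpowers_iff.1 (hA u hu)
    have hyp : PEl p (u ^ p ^ m) := hpel _ (Subgroup.pow_mem _ hu _)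
    obtain ⟨l, hl⟩ := hyp
    obtain ⟨s, _, hs⟩ := (Nat.dvd_prime_pow hp).1 (orderOf_dvd_of_pow_eq_one hl)
    have hs2 : s ≤ m + 2 := by
      by_contra hcon
      push Not at hcon
      apply hnle
      have hoy : orderOf ((u ^ p ^ m) ^ p ^ (s - (m + 3))) = p ^ (m + 3) := by
        rw [orderOf_pow_of_dvd (pow_ne_zero _ hp.ne_zero) (by rw [hs]; exact pow_dvd_pow _ (by omega)), hs,
          Nat.pow_div (by omega) hp.pos]
        congr 1
        omega
      have heq := h8 (Subgroup.zpowers ((u ^ p ^ m) ^ p ^ (s - (m + 3)))) (Zg p e m z) z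
        (by
          rw [Subgroup.zpowers_le]
          exact Subgroup.pow_mem _ (hA u hu) _) hZz
        (by rw [Nat.card_zpowers, hoy, hcz])
      rw [← heq, Subgroup.zpowers_le]
      exact Subgroup.pow_mem _ (Subgroup.pow_mem _ (Subgroup.mem_zpowers u) _) _
    have h1 : (u ^ p ^ m) ^ p ^ s = 1 := by
      rw [← hs]
      exact pow_orderOf_eq_one _
    have h2 : u ^ p ^ (e - 3) = ((u ^ p ^ m) ^ p ^ s) ^ p ^ (e - 3 - m - s) := by
      rw [← pow_mul, ← pow_mul, ← pow_add, ← pow_add]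
      congr 2
      omega
    rw [h2, h1, one_pow]

end Pool.Agent.ND
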